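import Pool.Agent.Lib.MP_610fe3_an.CH.Mfd

/-!
# Corollaries of the chain theorem: commuting Anosov diffeomorphisms, actions of `ℤ^k`
-/

set_option autoImplicit false

open Set Filter Function Bundle
open scoped Manifold ContDiff Topology

namespace Pool.Agent.Lib.MP610fe3.CH

variable {V : Type*} [NormedAddCommGroup V] [NormedSpace ℝ V] [FiniteDimensional ℝ V]
  {M : Type*} [TopologicalSpace M] [CompactSpace M] [T2Space M] [ConnectedSpace M]
  [ChartedSpace V M] [IsManifold 𝓘(ℝ, V) ∞ M]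
  [RiemannianBundle (fun x : M => TangentSpace 𝓘(ℝ, V) x)]
  [IsContinuousRiemannianBundle V (fun x : M => TangentSpace 𝓘(ℝ, V) x)]

/-- Chains of commuting Anosov diffeomorphisms with transversality at one point. -/
theorem main_tns (m : ℕ) (g : ℕ → M ≃ₘ^1⟮𝓘(ℝ, V), 𝓘(ℝ, V)⟯ M)
    (Es Eu : ℕ → ∀ x : M, Submodule ℝ (TangentSpace 𝓘(ℝ, V) x))
    (hA : ∀ i ≤ m, Gen.IsAnosovSplitting (g i) (Es i) (Eu i))
    (hcomm : ∀ i < m, ∀ x, g i (g (i + 1) x) = g (i + 1) (g i x))
    (hlink : ∀ i < m, ∃ x, Disjoint (Es i x) (Eu (i + 1) x) ∨ Disjoint (Eu i x) (Es (i + 1) x))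
    (hend : ∀ x, g m (g 0 x) = x) : ∀ i ≤ m, TopTransitive (g i) := by
  classical
  obtain ⟨N, e, he, hemb, hinj⟩ := exists_embedding_euclidean_of_compact (I := 𝓘(ℝ, V)) (M := M)
  let _ : MetricSpace M := hemb.isEmbedding.comapMetricSpace e
  have hiso : Isometry e := hemb.isEmbedding.to_isometry
  have hl : ∀ i < m, Link (g i).toHomeomorph (g (i + 1)).toHomeomorph ∨
      Link (g (i + 1)).toHomeomorph (g i).toHomeomorph := by
    intro i hi
    obtain ⟨x, hx | hx⟩ := hlink i hi
    · exact Or.inl (link_of_disjoint e hiso he hinj (g i) (g (i + 1)) _ _ _ _ (hA i hi.le)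
        (hA (i + 1) hi) (hcomm i hi) hx)
    · exact Or.inr (link_of_disjoint e hiso he hinj (g (i + 1)) (g i) _ _ _ _ (hA (i + 1) hi)
        (hA i hi.le) (fun x => (hcomm i hi x).symm) hx.symm)
  refine mfd_chain e hiso he hinj m g Es Eu hA (fun i =>
    if i < m ∧ Link (g i).toHomeomorph (g (i + 1)).toHomeomorph then (g (i + 1)).toHomeomorph
    else (g i).toHomeomorph) (fun i hi => ?_) (fun i hi => ?_) fun x y hxy => ?_
  · by_cases h : i < m ∧ Link (g i).toHomeomorph (g (i + 1)).toHomeomorph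
    · simp only [if_pos h]
      exact h.2
    · simp only [if_neg h]
      exact link_self _
  · by_cases h : i < m ∧ Link (g i).toHomeomorph (g (i + 1)).toHomeomorph
    · simp only [if_pos h]
      exact link_self _
    · simp only [if_neg h]
      rcases hl i hi with h1 | h1
      · exact absurd ⟨hi, h1⟩ h
      · exact h1
  · have h : ¬ (m < m ∧ Link (g m).toHomeomorph (g (m + 1)).toHomeomorph) := fun h =>
      lt_irrefl m h.1
    simp only [if_neg h]
    have h1 : ((g m).toHomeomorph : M → M) = (g 0).symm := by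
      funext z
      have h2 := hend ((g 0).symm z)
      rw [(g 0).apply_symm_apply] at h2
      exact h2
    rw [h1]
    exact hxy

/-- Actions of `ℤ^k` without negatively proportional Lyapunov functionals. -/
theorem main_weyl {k : ℕ} (A : (Fin k → ℤ) → M ≃ₘ^1⟮𝓘(ℝ, V), 𝓘(ℝ, V)⟯ M)
    (hadd : ∀ n n' x, A (n + n') x = A n (A n' x)) {J : Type*} [Finite J] (χ : J → Fin k → ℝ)
    (F : J → ∀ x : M, Submodule ℝ (TangentSpace 𝓘(ℝ, V) x))
    (hA : ∀ n : Fin k → ℤ, (∀ j, ∑ i, χ j i * (n i : ℝ) ≠ 0) → Gen.IsAnosovSplitting (A n)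
      (fun x => ⨆ (j) (_ : ∑ i, χ j i * (n i : ℝ) < 0), F j x)
      (fun x => ⨆ (j) (_ : 0 < ∑ i, χ j i * (n i : ℝ)), F j x))
    (htns : ∀ i j, ∀ t : ℝ, 0 < t → χ i ≠ -(t • χ j))
    (n : Fin k → ℤ) (hn : ∀ j, ∑ i, χ j i * (n i : ℝ) ≠ 0) : TopTransitive (A n) := by
  classical
  obtain ⟨m, c, h0, hm, hc⟩ := exists_walls χ htns (n := n) hn
  obtain ⟨N, e, he, hemb, hinj⟩ := exists_embedding_euclidean_of_compact (I := 𝓘(ℝ, V)) (M := M)
  let _ : MetricSpace M := hemb.isEmbedding.comapMetricSpace e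
  have hiso : Isometry e := hemb.isEmbedding.to_isometry
  have hreg : ∀ i ≤ m, Regular χ (c i) := by
    intro i hi
    rcases hi.lt_or_eq with h | h
    · exact (hc i h).1
    · rw [h, hm]
      intro j hj
      rw [ev_neg, neg_eq_zero] at hj
      exact hn j hj
  have hcomm : ∀ v v' x, A v (A v' x) = A v' (A v x) := by
    intro v v' x
    rw [← hadd, ← hadd, add_comm]
  set Es : ℕ → ∀ x : M, Submodule ℝ (TangentSpace 𝓘(ℝ, V) x) := fun i x =>
    ⨆ (j) (_ : ev (χ j) (c i) < 0), F j x with hEs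
  set Eu : ℕ → ∀ x : M, Submodule ℝ (TangentSpace 𝓘(ℝ, V) x) := fun i x =>
    ⨆ (j) (_ : 0 < ev (χ j) (c i)), F j x with hEu
  have hA' : ∀ i ≤ m, Gen.IsAnosovSplitting (A (c i)) (Es i) (Eu i) := fun i hi =>
    hA (c i) (hreg i hi)
  have hle : ∀ i ≤ m, ∀ i' ≤ m, Below χ (c i) (c i') →
      Link (A (c i)).toHomeomorph (A (c i')).toHomeomorph := by
    intro i hi i' hi' hB
    refine link_of_le e hiso he hinj (A (c i)) (A (c i')) _ _ _ _ (hA' i hi) (hA' i' hi')
      (hcomm _ _) fun x => ?_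
    exact iSup_le fun j => iSup_le fun hj => le_iSup_of_le j (le_iSup_of_le (hB j hj) le_rfl)
  have key := mfd_chain e hiso he hinj m (fun i => A (c i)) Es Eu hA' (fun i =>
    if i < m ∧ Below χ (c i) (c (i + 1)) then (A (c (i + 1))).toHomeomorph
    else (A (c i)).toHomeomorph) (fun i hi => ?_) (fun i hi => ?_) fun x y hxy => ?_
  · have h1 := key 0 (Nat.zero_le m)
    simp only [h0] at h1
    exact h1
  · by_cases h : i < m ∧ Below χ (c i) (c (i + 1))
    · simp only [if_pos h]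
      exact hle i hi (i + 1) h.1 h.2
    · simp only [if_neg h]
      exact link_self _
  · by_cases h : i < m ∧ Below χ (c i) (c (i + 1))
    · simp only [if_pos h]
      exact link_self _
    · simp only [if_neg h]
      rcases (hc i hi).2.2 with h1 | h1
      · exact absurd ⟨hi, h1⟩ h
      · exact hle (i + 1) hi i hi.le h1
  · have h : ¬ (m < m ∧ Below χ (c m) (c (m + 1))) := fun h => lt_irrefl m h.1
    simp only [if_neg h]
    have hz : ∀ z, A 0 z = z := by
      intro z
      have h2 := hadd 0 0 z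
      rw [add_zero] at h2
      exact ((A 0).injective h2).symm
    have h1 : ((A (c m)).toHomeomorph : M → M) = (A (c 0)).symm := by
      funext z
      apply (A (c 0)).injective
      show A (c 0) (A (c m) z) = A (c 0) ((A (c 0)).symm z)
      rw [(A (c 0)).apply_symm_apply, ← hadd, h0, hm, add_neg_cancel, hz]
    rw [h1]
    exact hxy

end Pool.Agent.Lib.MP610fe3.CH
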