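import Mathlib

/-!
# Stable sets of homeomorphisms
-/

set_option autoImplicit false

open Set Filter Function
open scoped Topology

namespace Pool.Agent.Lib.MP610fe3.CH

/-- `x` and `y` are in the same stable set of `g`: the distance of `g^n x` and `g^n y` tends to `0`,
that is, the pairs `(g^n x, g^n y)` converge to the diagonal (`X` is compact in the applications). -/
def SameStable {X : Type*} [TopologicalSpace X] (g : X → X) (x y : X) : Prop :=
  Tendsto (fun n : ℕ => (g^[n] x, g^[n] y)) atTop (𝓝ˢ (diagonal X))

/-- `h` permutes the stable sets of `g` and the unstable sets of `g` (the stable sets of the inverse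
of `g`), and every stable set of `g` lies in a stable set of `h`. -/
structure Dominates {X : Type*} [TopologicalSpace X] (h g : X ≃ₜ X) : Prop where
  stable : ∀ x y, SameStable g (h x) (h y) ↔ SameStable g x y
  unstable : ∀ x y, SameStable g.symm (h x) (h y) ↔ SameStable g.symm x y
  le : ∀ x y, SameStable g x y → SameStable h x y

end Pool.Agent.Lib.MP610fe3.CH
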