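import Mathlib

/-!
# Chains of Weyl chambers

Finitely many linear functionals on `ℤ^k`, no two of them negatively proportional: from every
regular vector `n` there is a chain of regular vectors to `-n` such that for consecutive vectors the
sets of functionals which are negative at them are nested.
-/

set_option autoImplicit false

open Set Filter Function
open scoped Topology

namespace Pool.Agent.Lib.MP610fe3.CH

variable {k : ℕ} {J : Type*}

/-- The value at `n ∈ ℤ^k` of the linear functional with coefficients `c`. -/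
def ev (c : Fin k → ℝ) (n : Fin k → ℤ) : ℝ := ∑ i, c i * (n i : ℝ)

theorem ev_add (c : Fin k → ℝ) (n n' : Fin k → ℤ) : ev c (n + n') = ev c n + ev c n' := by
  simp only [ev, ← Finset.sum_add_distrib]
  refine Finset.sum_congr rfl fun i _ => ?_
  rw [Pi.add_apply, Int.cast_add]
  ring

theorem ev_smul (c : Fin k → ℝ) (p : ℤ) (n : Fin k → ℤ) : ev c (p • n) = p * ev c n := by
  simp only [ev, Finset.mul_sum]
  refine Finset.sum_congr rfl fun i _ => ?_
  rw [Pi.smul_apply, smul_eq_mul, Int.cast_mul]
  ring

theorem ev_neg (c : Fin k → ℝ) (n : Fin k → ℤ) : ev c (-n) = -ev c n := by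
  have := ev_smul c (-1) n
  rw [neg_one_smul] at this
  rw [this]
  push_cast
  ring

/-- `n` is in no kernel. -/
def Regular (χ : J → Fin k → ℝ) (n : Fin k → ℤ) : Prop := ∀ j, ev (χ j) n ≠ 0

/-- The functionals negative at `n` are negative at `n'`. -/
def Below (χ : J → Fin k → ℝ) (n n' : Fin k → ℤ) : Prop := ∀ j, ev (χ j) n < 0 → ev (χ j) n' < 0

/-- One step of a chain. -/
def Step (χ : J → Fin k → ℝ) (n n' : Fin k → ℤ) : Prop :=
  Regular χ n ∧ Regular χ n' ∧ (Below χ n n' ∨ Below χ n' n)

/-- The functionals `i` and `j` have the same sign everywhere. -/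
def Same (χ : J → Fin k → ℝ) (i j : J) : Prop := ∀ v, ev (χ i) v < 0 ↔ ev (χ j) v < 0

/-- General relative position. -/
def Gener (χ : J → Fin k → ℝ) (n n' : Fin k → ℤ) : Prop :=
  ∀ i j, ev (χ i) n * ev (χ j) n' = ev (χ j) n * ev (χ i) n' → Same χ i j

theorem exists_chain_of_gener [Fintype J] (χ : J → Fin k → ℝ) (d : ℕ) :
    ∀ n n' : Fin k → ℤ, Regular χ n → Regular χ n' → Gener χ n n' →
      (Finset.univ.filter fun j => ¬ (ev (χ j) n < 0 ↔ ev (χ j) n' < 0)).card = d →
      Relation.ReflTransGen (Step χ) n n' := by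
  classical
  induction d using Nat.strong_induction_on with
  | _ d ih =>
    intro n n' hn hn' hG hd
    set Df := Finset.univ.filter fun j => ¬ (ev (χ j) n < 0 ↔ ev (χ j) n' < 0) with hDf
    rcases Df.eq_empty_or_nonempty with he | hne
    · apply Relation.ReflTransGen.single
      refine ⟨hn, hn', Or.inl fun j hj => ?_⟩
      by_contra hj'
      have : j ∈ Df := by
        rw [hDf, Finset.mem_filter]
        exact ⟨Finset.mem_univ _, fun h => hj' (h.1 hj)⟩
      rw [he] at this
      exact absurd this (Finset.notMem_empty j)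
    · set r : J → ℝ := fun j => -ev (χ j) n / ev (χ j) n' with hr
      obtain ⟨j₁, hj₁, hmin⟩ := Finset.exists_min_image Df r hne
      have hsign : ∀ j ∈ Df, (ev (χ j) n < 0 ∧ 0 < ev (χ j) n') ∨
          (0 < ev (χ j) n ∧ ev (χ j) n' < 0) := by
        intro j hj
        rw [hDf, Finset.mem_filter] at hj
        rcases lt_or_gt_of_ne (hn j) with h1 | h1 <;> rcases lt_or_gt_of_ne (hn' j) with h2 | h2
        · exact absurd ⟨fun _ => h2, fun _ => h1⟩ hj.2
        · exact Or.inl ⟨h1, h2⟩
        · exact Or.inr ⟨h1, h2⟩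
        · exact absurd ⟨fun h => absurd h h1.le.not_gt, fun h => absurd h h2.le.not_gt⟩ hj.2
      have hrpos : ∀ j ∈ Df, 0 < r j := by
        intro j hj
        rcases hsign j hj with ⟨h1, h2⟩ | ⟨h1, h2⟩
        · exact div_pos (by linarith) h2
        · exact div_pos_of_neg_of_neg (by linarith) h2
      obtain ⟨b, hb, hbs⟩ : ∃ b, r j₁ < b ∧ ∀ j, r j₁ < r j → b ≤ r j := by
        have h1 : ∀ᶠ x in 𝓝[>] (r j₁), ∀ j, r j₁ < r j → x ≤ r j := by
          refine eventually_all.2 fun j => ?_
          by_cases h : r j₁ < r j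
          · filter_upwards [mem_nhdsWithin_of_mem_nhds (Iio_mem_nhds h)] with x hx _
            exact (show x < r j from hx).le
          · exact Eventually.of_forall fun x h' => absurd h' h
        obtain ⟨x, hx, hx'⟩ := (h1.and self_mem_nhdsWithin).exists
        exact ⟨x, hx', hx⟩
      obtain ⟨ρ, hρ1, hρ2⟩ := exists_rat_btwn hb
      have hρ0 : (0 : ℝ) < ρ := (hrpos j₁ hj₁).trans hρ1
      have hden : (0 : ℝ) < ρ.den := by exact_mod_cast ρ.den_pos
      set n₂ : Fin k → ℤ := (ρ.den : ℤ) • n + ρ.num • n' with hn₂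
      have hev : ∀ j, ev (χ j) n₂ = ρ.den * (ev (χ j) n + ρ * ev (χ j) n') := by
        intro j
        rw [hn₂, ev_add, ev_smul, ev_smul]
        have h1 : (ρ.num : ℝ) = ρ.den * (ρ : ℝ) := by
          have h2 : (ρ : ℝ) = (ρ.num : ℝ) / (ρ.den : ℝ) := by
            exact_mod_cast (Rat.cast_def (K := ℝ) ρ)
          rw [h2]
          field_simp
        rw [h1]
        push_cast
        ring
      -- the signs at `n₂`
      have hA : ∀ j, j ∉ Df → (ev (χ j) n₂ < 0 ↔ ev (χ j) n < 0) ∧ ev (χ j) n₂ ≠ 0 := by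
        intro j hj
        rw [hDf, Finset.mem_filter] at hj
        have h1 : ev (χ j) n < 0 ↔ ev (χ j) n' < 0 := by
          by_contra h
          exact hj ⟨Finset.mem_univ _, h⟩
        rw [hev]
        rcases lt_or_gt_of_ne (hn j) with h2 | h2
        · have h3 := h1.1 h2
          have h4 : ev (χ j) n + ρ * ev (χ j) n' < 0 := by nlinarith
          have h5 := mul_neg_of_pos_of_neg hden h4
          exact ⟨⟨fun _ => h2, fun _ => h5⟩, h5.ne⟩
        · have h3 : 0 < ev (χ j) n' := by
            rcases lt_or_gt_of_ne (hn' j) with h | h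
            · exact absurd (h1.2 h) h2.le.not_gt
            · exact h
          have h4 : 0 < ev (χ j) n + ρ * ev (χ j) n' := by nlinarith
          have h5 := mul_pos hden h4
          exact ⟨⟨fun h => absurd h h5.le.not_gt, fun h => absurd h h2.le.not_gt⟩, h5.ne'⟩
      have hB : ∀ j ∈ Df, r j = r j₁ → (ev (χ j) n₂ < 0 ↔ ev (χ j) n' < 0) ∧ ev (χ j) n₂ ≠ 0 := by
        intro j hj hrj
        have hlt : r j < ρ := by rw [hrj]; exact hρ1
        rw [hev]
        rcases hsign j hj with ⟨h1, h2⟩ | ⟨h1, h2⟩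
        · have h3 : -ev (χ j) n < ρ * ev (χ j) n' := (div_lt_iff₀ h2).1 hlt
          have h5 : 0 < (ρ.den : ℝ) * (ev (χ j) n + ρ * ev (χ j) n') :=
            mul_pos hden (by linarith)
          exact ⟨⟨fun h => absurd h h5.le.not_gt, fun h => absurd h h2.le.not_gt⟩, h5.ne'⟩
        · have h3 : ρ * ev (χ j) n' < -ev (χ j) n := (div_lt_iff_of_neg h2).1 hlt
          have h5 : (ρ.den : ℝ) * (ev (χ j) n + ρ * ev (χ j) n') < 0 :=
            mul_neg_of_pos_of_neg hden (by linarith)
          exact ⟨⟨fun _ => h2, fun _ => h5⟩, h5.ne⟩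
      have hC : ∀ j ∈ Df, r j ≠ r j₁ → (ev (χ j) n₂ < 0 ↔ ev (χ j) n < 0) ∧ ev (χ j) n₂ ≠ 0 := by
        intro j hj hrj
        have hlt : ρ < r j := hρ2.trans_le (hbs j (lt_of_le_of_ne (hmin j hj) (Ne.symm hrj)))
        rw [hev]
        rcases hsign j hj with ⟨h1, h2⟩ | ⟨h1, h2⟩
        · have h3 : ρ * ev (χ j) n' < -ev (χ j) n := (lt_div_iff₀ h2).1 hlt
          have h5 : (ρ.den : ℝ) * (ev (χ j) n + ρ * ev (χ j) n') < 0 :=
            mul_neg_of_pos_of_neg hden (by linarith)
          exact ⟨⟨fun _ => h1, fun _ => h5⟩, h5.ne⟩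
        · have h3 : -ev (χ j) n < ρ * ev (χ j) n' := (lt_div_iff_of_neg h2).1 hlt
          have h5 : 0 < (ρ.den : ℝ) * (ev (χ j) n + ρ * ev (χ j) n') :=
            mul_pos hden (by linarith)
          exact ⟨⟨fun h => absurd h h5.le.not_gt, fun h => absurd h h1.le.not_gt⟩, h5.ne'⟩
      have hreg : Regular χ n₂ := by
        intro j
        by_cases hj : j ∈ Df
        · by_cases hrj : r j = r j₁
          · exact (hB j hj hrj).2
          · exact (hC j hj hrj).2
        · exact (hA j hj).2
      -- the functionals that change sign first are positively proportional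
      have hsame : ∀ j ∈ Df, r j = r j₁ → Same χ j j₁ := by
        intro j hj hrj
        apply hG
        have h1 : ev (χ j) n' ≠ 0 := hn' j
        have h2 : ev (χ j₁) n' ≠ 0 := hn' j₁
        have h3 : -ev (χ j) n / ev (χ j) n' = -ev (χ j₁) n / ev (χ j₁) n' := hrj
        rw [div_eq_div_iff h1 h2] at h3
        linarith
      have hstep : Step χ n n₂ := by
        refine ⟨hn, hreg, ?_⟩
        rcases hsign j₁ hj₁ with ⟨h1, h2⟩ | ⟨h1, h2⟩
        · right
          intro j hj
          by_cases hjD : j ∈ Df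
          · by_cases hrj : r j = r j₁
            · have h3 := (hB j hjD hrj).1.1 hj
              exact absurd ((hsame j hjD hrj n').1 h3) h2.le.not_gt
            · exact (hC j hjD hrj).1.1 hj
          · exact (hA j hjD).1.1 hj
        · left
          intro j hj
          by_cases hjD : j ∈ Df
          · by_cases hrj : r j = r j₁
            · exact absurd ((hsame j hjD hrj n).1 hj) h1.le.not_gt
            · exact (hC j hjD hrj).1.2 hj
          · exact (hA j hjD).1.2 hj
      have hG2 : Gener χ n₂ n' := by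
        intro i j hij
        apply hG
        rw [hev, hev] at hij
        have h1 : (ρ.den : ℝ) * (ev (χ i) n * ev (χ j) n') =
            (ρ.den : ℝ) * (ev (χ j) n * ev (χ i) n') := by linarith
        exact mul_left_cancel₀ hden.ne' h1
      have hcard : (Finset.univ.filter fun j => ¬ (ev (χ j) n₂ < 0 ↔ ev (χ j) n' < 0)).card
          < d := by
        rw [← hd]
        apply Finset.card_lt_card
        rw [Finset.ssubset_iff_of_subset]
        · refine ⟨j₁, hj₁, fun h => ?_⟩
          rw [Finset.mem_filter] at h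
          exact h.2 (hB j₁ hj₁ rfl).1
        · intro j hj
          rw [Finset.mem_filter] at hj
          by_contra hjD
          have h1 := (hA j hjD).1
          have h2 : ev (χ j) n < 0 ↔ ev (χ j) n' < 0 := by
            by_contra h
            apply hjD
            rw [hDf, Finset.mem_filter]
            exact ⟨Finset.mem_univ _, h⟩
          exact hj.2 (h1.trans h2)
      exact Relation.ReflTransGen.head hstep (ih _ hcard n₂ n' hreg hn' hG2 rfl)

/-- Finitely many nonzero functionals do not vanish at some integer vector. -/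
theorem exists_int_vector {ι : Type*} [Fintype ι] (u : ι → Fin k → ℝ) (hu : ∀ i, u i ≠ 0) :
    ∃ w : Fin k → ℤ, ∀ i, ev (u i) w ≠ 0 := by
  classical
  set P : ι → Polynomial ℝ := fun i => ∑ j : Fin k, Polynomial.C (u i j) * Polynomial.X ^ (j : ℕ)
    with hP
  have hP0 : ∀ i, P i ≠ 0 := by
    intro i h
    apply hu i
    funext j
    have h1 := congrArg (fun q => q.coeff (j : ℕ)) h
    simp only [hP, Polynomial.finsetSum_coeff, Polynomial.coeff_C_mul, Polynomial.coeff_X_pow,
      Polynomial.coeff_zero] at h1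
    rw [Finset.sum_eq_single j] at h1
    · simpa using h1
    · intro j' _ hj'
      have : ¬ ((j : ℕ) = (j' : ℕ)) := fun h => hj' (Fin.ext h.symm)
      simp [this]
    · intro h
      exact absurd (Finset.mem_univ j) h
  have hprod : (∏ i, P i) ≠ 0 := Finset.prod_ne_zero_iff.2 fun i _ => hP0 i
  obtain ⟨T, hT⟩ : ∃ T : ℕ, (∏ i, P i).eval (T : ℝ) ≠ 0 := by
    by_contra hall
    push Not at hall
    apply hprod
    apply Polynomial.eq_zero_of_infinite_isRoot
    have h1 : (range fun T : ℕ => (T : ℝ)).Infinite := infinite_range_of_injective Nat.cast_injective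
    refine h1.mono ?_
    rintro _ ⟨T, rfl⟩
    exact hall T
  refine ⟨fun j => (T : ℤ) ^ (j : ℕ), fun i h => ?_⟩
  rw [Polynomial.eval_prod] at hT
  have h2 := Finset.prod_ne_zero_iff.1 hT i (Finset.mem_univ i)
  apply h2
  rw [← h]
  simp only [hP, ev, Polynomial.eval_finsetSum, Polynomial.eval_mul, Polynomial.eval_C,
    Polynomial.eval_pow, Polynomial.eval_X]
  push_cast
  rfl

theorem exists_generic [Fintype J] (χ : J → Fin k → ℝ)
    (htns : ∀ i j, ∀ t : ℝ, 0 < t → χ i ≠ -(t • χ j)) {n : Fin k → ℤ} (hn : Regular χ n) :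
    ∃ w, Regular χ w ∧ Gener χ n w := by
  classical
  -- the nonzero functionals
  set u : J ⊕ {p : J × J // ¬ Same χ p.1 p.2} → Fin k → ℝ := fun s => match s with
    | Sum.inl j => χ j
    | Sum.inr p => ev (χ p.1.1) n • χ p.1.2 - ev (χ p.1.2) n • χ p.1.1 with hu
  have hu0 : ∀ s, u s ≠ 0 := by
    rintro (j | ⟨⟨i, j⟩, hij⟩)
    · intro h
      have h' : χ j = 0 := h
      apply hn j
      simp [ev, h']
    · intro h
      have h' : ev (χ i) n • χ j - ev (χ j) n • χ i = 0 := h
      apply hij
      have hi := hn i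
      have hj := hn j
      have h2 : χ j = (ev (χ j) n / ev (χ i) n) • χ i := by
        have h3 : ev (χ i) n • χ j = ev (χ j) n • χ i := sub_eq_zero.1 h'
        rw [div_eq_inv_mul, mul_smul, ← h3, smul_smul, inv_mul_cancel₀ hi, one_smul]
      have hc : 0 < ev (χ j) n / ev (χ i) n := by
        rcases lt_or_gt_of_ne (div_ne_zero hj hi) with h4 | h4
        · exfalso
          apply htns j i (-(ev (χ j) n / ev (χ i) n)) (by linarith)
          rw [neg_smul, neg_neg]
          exact h2
        · exact h4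
      intro v
      have h5 : ev (χ j) v = (ev (χ j) n / ev (χ i) n) * ev (χ i) v := by
        conv_lhs => rw [h2]
        simp only [ev, Pi.smul_apply, smul_eq_mul, Finset.mul_sum]
        refine Finset.sum_congr rfl fun l _ => ?_
        ring
      show ev (χ i) v < 0 ↔ ev (χ j) v < 0
      rw [h5]
      constructor
      · intro h6
        exact mul_neg_of_pos_of_neg hc h6
      · intro h6
        by_contra h7
        push Not at h7
        exact absurd (mul_nonneg hc.le h7) (not_le.2 h6)
  obtain ⟨w, hw⟩ := exists_int_vector u hu0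
  refine ⟨w, fun j => hw (Sum.inl j), fun i j hij => ?_⟩
  by_contra hS
  apply hw (Sum.inr ⟨(i, j), hS⟩)
  have h1 : ev (ev (χ i) n • χ j - ev (χ j) n • χ i) w
      = ev (χ i) n * ev (χ j) w - ev (χ j) n * ev (χ i) w := by
    simp only [ev, Pi.sub_apply, Pi.smul_apply, smul_eq_mul, Finset.mul_sum,
      ← Finset.sum_sub_distrib]
    refine Finset.sum_congr rfl fun l _ => ?_
    ring
  show ev (ev (χ i) n • χ j - ev (χ j) n • χ i) w = 0
  rw [h1, hij, sub_self]

/-- **Chains of chambers.** -/
theorem exists_walls [Finite J] (χ : J → Fin k → ℝ)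
    (htns : ∀ i j, ∀ t : ℝ, 0 < t → χ i ≠ -(t • χ j)) {n : Fin k → ℤ} (hn : Regular χ n) :
    ∃ (m : ℕ) (c : ℕ → Fin k → ℤ), c 0 = n ∧ c m = -n ∧ ∀ i < m, Step χ (c i) (c (i + 1)) := by
  classical
  have := Fintype.ofFinite J
  obtain ⟨w, hw, hG⟩ := exists_generic χ htns hn
  have hn' : Regular χ (-n) := by
    intro j h
    rw [ev_neg, neg_eq_zero] at h
    exact hn j h
  have hG' : Gener χ w (-n) := by
    intro i j hij
    apply hG
    rw [ev_neg, ev_neg] at hij
    linarith
  have h1 := (exists_chain_of_gener χ _ n w hn hw hG rfl).trans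
    (exists_chain_of_gener χ _ w (-n) hw hn' hG' rfl)
  have key : ∀ v, Relation.ReflTransGen (Step χ) n v →
      ∃ (m : ℕ) (c : ℕ → Fin k → ℤ), c 0 = n ∧ c m = v ∧ ∀ i < m, Step χ (c i) (c (i + 1)) := by
    intro v hv
    induction hv with
    | refl => exact ⟨0, fun _ => n, rfl, rfl, fun i hi => absurd hi (Nat.not_lt_zero i)⟩
    | tail _ hstep ih =>
      rename_i b c' _
      obtain ⟨m, c, h0, hm, hc⟩ := ih
      refine ⟨m + 1, fun i => if i ≤ m then c i else c', by simp [h0], by simp, fun i hi => ?_⟩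
      rcases Nat.lt_succ_iff_lt_or_eq.1 hi with h | h
      · have h2 : i ≤ m := h.le
        have h3 : i + 1 ≤ m := h
        simp only [h2, h3, if_true]
        exact hc i h
      · subst h
        have h3 : ¬ (i + 1 ≤ i) := by omega
        simp only [le_refl, if_true, h3, if_false]
        rw [hm]
        exact hstep
  exact key _ h1

end Pool.Agent.Lib.MP610fe3.CH
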