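import Pool.Agent.Lib.MP_610fe3_an.CH.Nest
import Pool.Agent.Lib.MP_610fe3_an.CH.Walls
import Pool.Agent.Lib.MP_610fe3_an.CH.Defs
import Pool.Agent.Lib.MP_610fe3_an.Gen.Split
import Pool.Agent.Lib.MP_610fe3_an.Cf.AssemblyM

/-!
# The chain theorem for Anosov diffeomorphisms
-/

set_option autoImplicit false

open Set Filter Function Bundle
open scoped Manifold ContDiff Topology

namespace Pool.Agent.Lib.MP610fe3.CH

open Gen (dE)

section Top

theorem sameStable_iff {X : Type*} [MetricSpace X] [CompactSpace X] (g : X → X) (x y : X) :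
    SameStable g x y ↔ FwdAsymp g x y := by
  rw [SameStable, nhdsSet_diagonal_eq_uniformity, Metric.uniformity_eq_comap_nhds_zero,
    tendsto_comap_iff]
  exact Iff.rfl

theorem Dominates.link {X : Type*} [MetricSpace X] [CompactSpace X] {h g : X ≃ₜ X}
    (H : Dominates h g) : Link g h :=
  ⟨fun x y hxy => (sameStable_iff _ _ _).1 ((H.stable x y).1 ((sameStable_iff _ _ _).2 hxy)),
    fun x y hxy => (sameStable_iff _ _ _).1 ((H.unstable x y).1 ((sameStable_iff _ _ _).2 hxy)),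
    fun x y hxy => (sameStable_iff _ _ _).1 (H.le x y ((sameStable_iff _ _ _).2 hxy))⟩

end Top

section Abstract

variable {M W : Type*} [MetricSpace M] [CompactSpace M] [NormedAddCommGroup W] [NormedSpace ℝ W]
  {E : Emb M W} {f g : M ≃ₜ M}

/-- Disjoint ranges of commuting projections. -/
theorem comp_eq_zero_of_disjoint (s : Split E f) (t : Split E g) (hs : s.Hyperbolic)
    (ht : t.Hyperbolic) (hc : ∀ x, f (g x) = g (f x)) {x : M}
    (hd : Disjoint (s.S x).range (t.U x).range) : t.U x ∘L s.S x = 0 := by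
  obtain ⟨h1, -⟩ := US_idem s t hs ht hc x
  ext w
  have hmem1 : t.U x (s.S x w) ∈ (t.U x).range := ⟨s.S x w, rfl⟩
  have hmem2 : t.U x (s.S x w) ∈ (s.S x).range := by
    have := congrArg (fun L => L w) h1
    simp only [ContinuousLinearMap.comp_apply] at this
    rw [this]
    exact ⟨t.U x w, rfl⟩
  have := (Submodule.disjoint_def.1 hd) _ hmem2 hmem1
  simpa using this

end Abstract

section Manifold

variable {V : Type*} [NormedAddCommGroup V] [NormedSpace ℝ V] [FiniteDimensional ℝ V] {N : ℕ}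
  {M : Type*} [MetricSpace M] [CompactSpace M]
  [ChartedSpace V M] [IsManifold 𝓘(ℝ, V) ∞ M]
  [RiemannianBundle (fun x : M => TangentSpace 𝓘(ℝ, V) x)]
  [IsContinuousRiemannianBundle V (fun x : M => TangentSpace 𝓘(ℝ, V) x)]
  (e : M → EuclideanSpace ℝ (Fin N)) (hiso : Isometry e) (he : ContMDiff 𝓘(ℝ, V) (𝓡 N) ∞ e)
  (hinj : ∀ x, Injective (mfderiv 𝓘(ℝ, V) (𝓡 N) e x))

include hiso he hinj

/-- The general chain theorem for the metric of an embedding. -/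
theorem mfd_chain_general [ConnectedSpace M] (m : ℕ) (g : ℕ → M ≃ₘ^1⟮𝓘(ℝ, V), 𝓘(ℝ, V)⟯ M)
    (Es Eu : ℕ → ∀ x : M, Submodule ℝ (TangentSpace 𝓘(ℝ, V) x))
    (hA : ∀ i ≤ m, Gen.IsAnosovSplitting (g i) (Es i) (Eu i)) (h : ℕ → M ≃ₜ M)
    (h1 : ∀ i ≤ m, Link (g i).toHomeomorph (h i))
    (h2 : ∀ i < m, Link (g (i + 1)).toHomeomorph (h i))
    (h3 : ∀ K : Set M, IsClosed K → K.Nonempty → (∀ i ≤ m, Sat (h i) K) → K = univ) :
    ∀ i ≤ m, TopTransitive (g i) := by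
  obtain ⟨E, hE, -, hr⟩ := Gen.exists_emb e hiso he hinj
  subst hE
  have hs : ∀ i ≤ m, Expansive (g i).toHomeomorph ∧ Shadowing (g i).toHomeomorph := by
    intro i hi
    obtain ⟨s, hsH, -, -⟩ := Gen.exists_split E he hinj hr (g i) (Es i) (Eu i) (hA i hi)
    exact ⟨s.expansive hsH, s.shadowing hsH⟩
  exact chain_general m (fun i => (g i).toHomeomorph) h (fun i hi => (hs i hi).1)
    (fun i hi => (hs i hi).2) h1 h2 h3

/-- The chain theorem for the metric of an embedding. -/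
theorem mfd_chain [ConnectedSpace M] (m : ℕ) (g : ℕ → M ≃ₘ^1⟮𝓘(ℝ, V), 𝓘(ℝ, V)⟯ M)
    (Es Eu : ℕ → ∀ x : M, Submodule ℝ (TangentSpace 𝓘(ℝ, V) x))
    (hA : ∀ i ≤ m, Gen.IsAnosovSplitting (g i) (Es i) (Eu i)) (h : ℕ → M ≃ₜ M)
    (h1 : ∀ i ≤ m, Link (g i).toHomeomorph (h i))
    (h2 : ∀ i < m, Link (g (i + 1)).toHomeomorph (h i))
    (h3 : ∀ x y, FwdAsymp (g 0).symm x y → FwdAsymp (h m) x y) :
    ∀ i ≤ m, TopTransitive (g i) := by
  obtain ⟨E, hE, -, hr⟩ := Gen.exists_emb e hiso he hinj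
  subst hE
  have hs : ∀ i ≤ m, Expansive (g i).toHomeomorph ∧ Shadowing (g i).toHomeomorph := by
    intro i hi
    obtain ⟨s, hsH, -, -⟩ := Gen.exists_split E he hinj hr (g i) (Es i) (Eu i) (hA i hi)
    exact ⟨s.expansive hsH, s.shadowing hsH⟩
  exact chain m (fun i => (g i).toHomeomorph) h (fun i hi => (hs i hi).1)
    (fun i hi => (hs i hi).2) h1 h2 h3

/-- A commuting `C^1` diffeomorphism which contracts the stable bundle. -/
theorem link_of_contr (g f : M ≃ₘ^1⟮𝓘(ℝ, V), 𝓘(ℝ, V)⟯ M)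
    (Es Eu : ∀ x : M, Submodule ℝ (TangentSpace 𝓘(ℝ, V) x)) (hA : Gen.IsAnosovSplitting g Es Eu)
    (hc : ∀ x, g (f x) = f (g x)) {C l : ℝ} (hC : 0 < C) (hl0 : 0 < l) (hl1 : l < 1)
    (hf : ∀ (k : ℕ) (x : M), ∀ v ∈ Es x,
      ‖mfderiv 𝓘(ℝ, V) 𝓘(ℝ, V) ((⇑f)^[k]) x v‖ ≤ C * l ^ k * ‖v‖) :
    Link g.toHomeomorph f.toHomeomorph := by
  obtain ⟨E, hE, -, hr⟩ := Gen.exists_emb e hiso he hinj
  subst hE
  obtain ⟨s, hsH, hsS, -⟩ := Gen.exists_split E he hinj hr g Es Eu hA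
  obtain ⟨D, hD, hDe⟩ := Gen.exists_hasD E he hinj hr f f.contMDiff
  obtain ⟨c, C2, hc0, hC2, hnorm⟩ := Gen.exists_norm_bounds E.e he hinj
  obtain ⟨K, hK1, hK⟩ := s.exists_bdd
  have hDe' : ∀ x v, D x (dE V E.e x v) = dE V E.e (f x) (mfderiv 𝓘(ℝ, V) 𝓘(ℝ, V) f x v) := hDe
  have hn1 : ∀ x v, c * ‖v‖ ≤ ‖dE V E.e x v‖ := by
    intro x v
    have h := (hnorm x v).1
    rw [norm_tangentSpace_vectorSpace] at h
    exact h
  have hn2 : ∀ x v, ‖dE V E.e x v‖ ≤ C2 * ‖v‖ := by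
    intro x v
    have h := (hnorm x v).2
    rw [norm_tangentSpace_vectorSpace] at h
    exact h
  set A : ℝ := C2 * C / c with hAdef
  have hApos : 0 < A := by positivity
  have hstep : ∀ (k : ℕ) (x y : M) (v : TangentSpace 𝓘(ℝ, V) x) (w : TangentSpace 𝓘(ℝ, V) y),
      ‖w‖ ≤ C * l ^ k * ‖v‖ → ‖dE V E.e y w‖ ≤ A * l ^ k * ‖dE V E.e x v‖ := by
    intro k x y v w h
    calc ‖dE V E.e y w‖ ≤ C2 * ‖w‖ := hn2 y w
      _ ≤ C2 * (C * l ^ k * ‖v‖) := by gcongr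
      _ = (A * l ^ k) * (c * ‖v‖) := by rw [hAdef]; field_simp
      _ ≤ (A * l ^ k) * ‖dE V E.e x v‖ := by gcongr; exact hn1 x v
  have hfw : ∀ (k : ℕ) (x : M), ∀ v ∈ Es x,
      ‖iterD D f k x (dE V E.e x v)‖ ≤ A * l ^ k * ‖dE V E.e x v‖ := by
    intro k x v hv
    rw [Gen.iterD_dE he f.contMDiff hDe' k x v]
    exact hstep k x _ v _ (hf k x v hv)
  have hest : ∀ (k : ℕ) x w, ‖iterD D f k x (s.S x w)‖ ≤ (A * K) * l ^ k * ‖w‖ := by
    intro k x w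
    have h1 : s.S x w ∈ (s.S x).range := ⟨w, rfl⟩
    rw [hsS x] at h1
    obtain ⟨v, hv, hvw⟩ := h1
    have hvw' : dE V E.e x v = s.S x w := hvw
    have h2 : ‖s.S x w‖ ≤ K * ‖w‖ := (s.S x).le_of_opNorm_le (hK x).1 w
    have h3 := hfw k x v hv
    rw [hvw'] at h3
    have h4 : 0 ≤ A * l ^ k := by positivity
    have h5 := mul_le_mul_of_nonneg_left h2 h4
    linarith
  have hAK : 0 < A * K := by positivity
  have hc' : ∀ x, g.toHomeomorph (f.toHomeomorph x) = f.toHomeomorph (g.toHomeomorph x) := hc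
  have hD' : HasD E f.toHomeomorph D := hD
  have hest' : ∀ (k : ℕ) x w, ‖iterD D f.toHomeomorph k x (s.S x w)‖ ≤ (A * K) * l ^ k * ‖w‖ :=
    hest
  exact link_of_comm hc' fun x y hxy => nested_of_estimate s hsH hD' hc' hAK hl0 hl1 hest' hxy

/-- Commuting Anosov diffeomorphisms with nested stable bundles. -/
theorem link_of_le (g g' : M ≃ₘ^1⟮𝓘(ℝ, V), 𝓘(ℝ, V)⟯ M)
    (Es Eu Es' Eu' : ∀ x : M, Submodule ℝ (TangentSpace 𝓘(ℝ, V) x))
    (hA : Gen.IsAnosovSplitting g Es Eu) (hA' : Gen.IsAnosovSplitting g' Es' Eu')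
    (hc : ∀ x, g (g' x) = g' (g x)) (hle : ∀ x, Es x ≤ Es' x) :
    Link g.toHomeomorph g'.toHomeomorph := by
  obtain ⟨E, hE, -, hr⟩ := Gen.exists_emb e hiso he hinj
  subst hE
  obtain ⟨s, hsH, hsS, -⟩ := Gen.exists_split E he hinj hr g Es Eu hA
  obtain ⟨t, htH, htS, -⟩ := Gen.exists_split E he hinj hr g' Es' Eu' hA'
  refine link_of_comm hc fun x y hxy => nested_of_range s t hsH htH hc (fun x => ?_) hxy
  rw [hsS, htS]
  exact Submodule.map_mono (hle x)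

/-- Commuting Anosov diffeomorphisms `g`, `g'`: no vector contracted by `g` and expanded by `g'` at
one point. -/
theorem link_of_disjoint [ConnectedSpace M] (g g' : M ≃ₘ^1⟮𝓘(ℝ, V), 𝓘(ℝ, V)⟯ M)
    (Es Eu Es' Eu' : ∀ x : M, Submodule ℝ (TangentSpace 𝓘(ℝ, V) x))
    (hA : Gen.IsAnosovSplitting g Es Eu) (hA' : Gen.IsAnosovSplitting g' Es' Eu')
    (hc : ∀ x, g (g' x) = g' (g x)) {x₀ : M} (hd : Disjoint (Es x₀) (Eu' x₀)) :
    Link g.toHomeomorph g'.toHomeomorph := by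
  obtain ⟨E, hE, -, hr⟩ := Gen.exists_emb e hiso he hinj
  subst hE
  obtain ⟨s, hsH, hsS, -⟩ := Gen.exists_split E he hinj hr g Es Eu hA
  obtain ⟨t, htH, -, htU⟩ := Gen.exists_split E he hinj hr g' Es' Eu' hA'
  have h0 : t.U x₀ ∘L s.S x₀ = 0 := by
    apply comp_eq_zero_of_disjoint s t hsH htH hc
    rw [hsS, htU]
    exact Submodule.disjoint_map (hinj x₀) hd
  exact link_of_comm hc fun x y hxy => nested s t hsH htH hc (US_zero s t hsH htH hc h0) hxy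

end Manifold

section Final

variable {V : Type*} [NormedAddCommGroup V] [NormedSpace ℝ V] [FiniteDimensional ℝ V]
  {M : Type*} [TopologicalSpace M] [CompactSpace M] [T2Space M] [ConnectedSpace M]
  [ChartedSpace V M] [IsManifold 𝓘(ℝ, V) ∞ M]
  [RiemannianBundle (fun x : M => TangentSpace 𝓘(ℝ, V) x)]
  [IsContinuousRiemannianBundle V (fun x : M => TangentSpace 𝓘(ℝ, V) x)]

/-- **The chain theorem.** -/
theorem main (m : ℕ) (g : ℕ → M ≃ₘ^1⟮𝓘(ℝ, V), 𝓘(ℝ, V)⟯ M)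
    (Es Eu : ℕ → ∀ x : M, Submodule ℝ (TangentSpace 𝓘(ℝ, V) x))
    (hA : ∀ i ≤ m, Gen.IsAnosovSplitting (g i) (Es i) (Eu i)) (h : ℕ → M ≃ₜ M)
    (h1 : ∀ i ≤ m, Dominates (h i) (g i).toHomeomorph)
    (h2 : ∀ i < m, Dominates (h i) (g (i + 1)).toHomeomorph)
    (h3 : ∀ x y, SameStable (g 0).symm x y → SameStable (h m) x y) :
    ∀ i ≤ m, TopTransitive (g i) := by
  obtain ⟨N, e, he, hemb, hinj⟩ := exists_embedding_euclidean_of_compact (I := 𝓘(ℝ, V)) (M := M)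
  let _ : MetricSpace M := hemb.isEmbedding.comapMetricSpace e
  have hiso : Isometry e := hemb.isEmbedding.to_isometry
  exact mfd_chain e hiso he hinj m g Es Eu hA h (fun i hi => (h1 i hi).link)
    (fun i hi => (h2 i hi).link)
    fun x y hxy => (sameStable_iff _ _ _).1 (h3 x y ((sameStable_iff _ _ _).2 hxy))

/-- **The chain theorem**, general form. -/
theorem main_general (m : ℕ) (g : ℕ → M ≃ₘ^1⟮𝓘(ℝ, V), 𝓘(ℝ, V)⟯ M)
    (Es Eu : ℕ → ∀ x : M, Submodule ℝ (TangentSpace 𝓘(ℝ, V) x))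
    (hA : ∀ i ≤ m, Gen.IsAnosovSplitting (g i) (Es i) (Eu i)) (h : ℕ → M ≃ₜ M)
    (h1 : ∀ i ≤ m, Dominates (h i) (g i).toHomeomorph)
    (h2 : ∀ i < m, Dominates (h i) (g (i + 1)).toHomeomorph)
    (h3 : ∀ K : Set M, IsClosed K → K.Nonempty →
      (∀ i ≤ m, ∀ x ∈ K, ∀ y, SameStable (h i) x y → y ∈ K) → K = univ) :
    ∀ i ≤ m, TopTransitive (g i) := by
  obtain ⟨N, e, he, hemb, hinj⟩ := exists_embedding_euclidean_of_compact (I := 𝓘(ℝ, V)) (M := M)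
  let _ : MetricSpace M := hemb.isEmbedding.comapMetricSpace e
  have hiso : Isometry e := hemb.isEmbedding.to_isometry
  exact mfd_chain_general e hiso he hinj m g Es Eu hA h (fun i hi => (h1 i hi).link)
    (fun i hi => (h2 i hi).link) fun K hK hne hS => h3 K hK hne fun i hi x hx y hxy =>
      hS i hi x hx y ((sameStable_iff _ _ _).1 hxy)

/-- The derivatives of the iterates of `f` contract the vectors of `F` exponentially. -/
def Contracts (f : M → M) (F : ∀ x : M, Submodule ℝ (TangentSpace 𝓘(ℝ, V) x)) : Prop :=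
  ∃ C l : ℝ, 0 < C ∧ 0 < l ∧ l < 1 ∧ ∀ (k : ℕ) (x : M), ∀ v ∈ F x,
    ‖mfderiv 𝓘(ℝ, V) 𝓘(ℝ, V) f^[k] x v‖ ≤ C * l ^ k * ‖v‖

/-- The chain theorem for commuting `C^1` diffeomorphisms. -/
theorem main_contracting (m : ℕ) (g h : ℕ → M ≃ₘ^1⟮𝓘(ℝ, V), 𝓘(ℝ, V)⟯ M)
    (Es Eu : ℕ → ∀ x : M, Submodule ℝ (TangentSpace 𝓘(ℝ, V) x))
    (hA : ∀ i ≤ m, Gen.IsAnosovSplitting (g i) (Es i) (Eu i))
    (hc1 : ∀ i ≤ m, ∀ x, g i (h i x) = h i (g i x))
    (hc2 : ∀ i < m, ∀ x, g (i + 1) (h i x) = h i (g (i + 1) x))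
    (h1 : ∀ i ≤ m, Contracts (h i) (Es i)) (h2 : ∀ i < m, Contracts (h i) (Es (i + 1)))
    (hc3 : ∀ x, g 0 (h m x) = h m (g 0 x)) (h3 : Contracts (h m) (Eu 0)) :
    ∀ i ≤ m, TopTransitive (g i) := by
  obtain ⟨N, e, he, hemb, hinj⟩ := exists_embedding_euclidean_of_compact (I := 𝓘(ℝ, V)) (M := M)
  let _ : MetricSpace M := hemb.isEmbedding.comapMetricSpace e
  have hiso : Isometry e := hemb.isEmbedding.to_isometry
  refine mfd_chain e hiso he hinj m g Es Eu hA (fun i => (h i).toHomeomorph) (fun i hi => ?_)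
    (fun i hi => ?_) ?_
  · obtain ⟨C, l, hC, hl0, hl1, hf⟩ := h1 i hi
    exact link_of_contr e hiso he hinj (g i) (h i) (Es i) (Eu i) (hA i hi) (hc1 i hi) hC hl0 hl1 hf
  · obtain ⟨C, l, hC, hl0, hl1, hf⟩ := h2 i hi
    exact link_of_contr e hiso he hinj (g (i + 1)) (h i) (Es (i + 1)) (Eu (i + 1))
      (hA (i + 1) hi) (hc2 i hi) hC hl0 hl1 hf
  · obtain ⟨C, l, hC, hl0, hl1, hf⟩ := h3
    have hA0 := hA 0 (Nat.zero_le m)
    have hAs : Gen.IsAnosovSplitting (g 0).symm (Eu 0) (Es 0) := Cf.IsAnosovSplitting.symm hA0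
    have hc3' : ∀ x, (g 0).symm (h m x) = h m ((g 0).symm x) :=
      comm_symm (a := (g 0).toHomeomorph) (g := (h m).toHomeomorph) hc3
    exact (link_of_contr e hiso he hinj (g 0).symm (h m) (Eu 0) (Es 0) hAs hc3' hC hl0 hl1 hf).c

end Final

end Pool.Agent.Lib.MP610fe3.CH
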