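import Pool.Agent.Lib.MP_610fe3_an.CH.Top
import Pool.Agent.Lib.MP_610fe3_an.Commute

/-!
# Maps commuting with a hyperbolic homeomorphism
-/

set_option autoImplicit false

open Set Filter Function
open scoped Topology

namespace Pool.Agent.Lib.MP610fe3.CH

section Metric

variable {X : Type*} [MetricSpace X] [CompactSpace X] {a g : X ≃ₜ X}

theorem fa_of_comm (hc : ∀ x, a (g x) = g (a x)) {x y : X} (h : FwdAsymp a (g x) (g y)) :
    FwdAsymp a x y := by
  have h1 := tendsto_dist_iter g.symm.continuous 1 h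
  refine h1.congr fun k => ?_
  have h2 : ∀ z, g.symm^[1] (a^[k] (g z)) = a^[k] z := by
    intro z
    have hC : Function.Commute (a : X → X) g := hc
    rw [(hC.iterate_left k) z, iterate_one, g.symm_apply_apply]
  rw [h2, h2]

omit [CompactSpace X] in
theorem comm_symm (hc : ∀ x, a (g x) = g (a x)) (x : X) : a.symm (g x) = g (a.symm x) := by
  apply a.injective
  rw [a.apply_symm_apply, hc, a.apply_symm_apply]

/-- A commuting homeomorphism preserves the stable and the unstable sets. -/
theorem link_of_comm (hc : ∀ x, a (g x) = g (a x))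
    (hn : ∀ x y, FwdAsymp a x y → FwdAsymp g x y) : Link a g :=
  ⟨fun _ _ h => fa_of_comm hc h, fun _ _ h => fa_of_comm (comm_symm hc) h, hn⟩

theorem link_self (a : X ≃ₜ X) : Link a a := link_of_comm (fun _ => rfl) fun _ _ h => h

end Metric

section Abstract

variable {M W : Type*} [MetricSpace M] [CompactSpace M] [NormedAddCommGroup W] [NormedSpace ℝ W]
  {E : Emb M W} {f : M ≃ₜ M}

/-- If `g` commutes with `f` and the derivative of an iterate of `g` contracts the stable bundle of
`f`, then the stable sets of `f` lie in stable sets of `g`. -/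
theorem nested' (s : Split E f) (hs : s.Hyperbolic) {g : M ≃ₜ M} {D : M → W →L[ℝ] W}
    (hD : HasD E g D) (hc : ∀ x, f (g x) = g (f x)) {k : ℕ}
    (hk : ∀ x w, ‖iterD D g (k + 1) x (s.S x w)‖ ≤ 1 / 8 * ‖w‖)
    {x y : M} (hxy : FwdAsymp f x y) : FwdAsymp g x y := by
  have hGD := hD.iter g.continuous k
  obtain ⟨KG, hKG1, hKG⟩ := exists_norm_bound hGD.cont
  obtain ⟨rG, hrG, hG⟩ := hGD.approx (1 / 8) (by norm_num)
  set ρ : ℝ := min (1 / 8) (1 / (8 * KG)) with hρdef
  have hKK : 0 < KG := by positivity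
  have hρ : 0 < ρ := lt_min (by norm_num) (by positivity)
  have hρ8 : ρ ≤ 1 / 8 := min_le_left _ _
  have hρ2 : KG * ρ ≤ 1 / 8 := by
    have h1 : ρ ≤ 1 / (8 * KG) := min_le_right _ _
    calc KG * ρ ≤ KG * (1 / (8 * KG)) := mul_le_mul_of_nonneg_left h1 hKK.le
      _ = 1 / 8 := by field_simp
  obtain ⟨j₀, rf, hrf, hF⟩ := s.exists_forward hs hρ hρ8
  set G : M → M := g^[k + 1] with hGdef
  have hGcont : Continuous G := g.continuous.iterate _
  have hGc : Function.Commute f G := by
    have : Function.Commute f g := hc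
    exact this.iterate_right (k + 1)
  set r : ℝ := min rf rG with hrdef
  have hr : 0 < r := lt_min hrf hrG
  -- one step
  have step : ∀ x z, (∀ m, dist (f^[m] z) (f^[m] x) < r) → dist (G z) (G x) ≤ dist z x / 2 := by
    intro x z hd
    have hU := (hF x z (fun m => (hd m).trans_le (min_le_left _ _))).1
    have hA := hG x z ((hd 0).trans_le (min_le_right _ _))
    set v := E.e z - E.e x with hv
    have hvd : ‖v‖ = dist z x := (E.dist_eq z x).symm
    have hd0 : 0 ≤ dist z x := dist_nonneg
    have e1 : iterD D g (k + 1) x v = iterD D g (k + 1) x (s.S x v)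
        + iterD D g (k + 1) x (s.U x v) := by
      have a1 := congrArg (fun L => L v) (hGD.right x)
      have a2 := congrArg (fun L => L v) (s.add x)
      simp only [ContinuousLinearMap.comp_apply, add_apply] at a1 a2
      rw [← map_add, a2, a1]
    have e3 : ‖iterD D g (k + 1) x (s.S x v)‖ ≤ 1 / 8 * dist z x := by
      rw [← hvd]; exact hk x v
    have e4 : ‖iterD D g (k + 1) x (s.U x v)‖ ≤ 1 / 8 * dist z x := by
      calc ‖iterD D g (k + 1) x (s.U x v)‖ ≤ KG * ‖s.U x v‖ :=
            (iterD D g (k + 1) x).le_of_opNorm_le (hKG x) _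
        _ ≤ KG * (ρ * dist z x) := by gcongr
        _ = KG * ρ * dist z x := by ring
        _ ≤ 1 / 8 * dist z x := by gcongr
    have e5 : ‖E.e (G z) - E.e (G x)‖ ≤ 1 / 8 * dist z x + (1 / 8 * dist z x + 1 / 8 * dist z x) := by
      have e6 : E.e (G z) - E.e (G x) = (E.e (G z) - E.e (G x) - iterD D g (k + 1) x v)
          + (iterD D g (k + 1) x (s.S x v) + iterD D g (k + 1) x (s.U x v)) := by
        rw [← e1]; abel
      rw [e6]
      exact (norm_add_le _ _).trans (add_le_add hA ((norm_add_le _ _).trans (add_le_add e3 e4)))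
    rw [E.dist_eq (G z) (G x)]
    linarith
  -- start
  obtain ⟨n₀, hn₀⟩ := (Metric.tendsto_atTop.1 hxy) (r / 2) (by positivity)
  set x' := f^[n₀] x with hx'
  set y' := f^[n₀] y with hy'
  have hstart : ∀ m, dist (f^[m] x') (f^[m] y') ≤ r / 2 := by
    intro m
    have := hn₀ (m + n₀) (by omega)
    rw [Real.dist_0_eq_abs, abs_of_nonneg dist_nonneg, iterate_add_apply, iterate_add_apply]
      at this
    exact this.le
  have hdec : ∀ j m, dist (f^[m] (G^[j] x')) (f^[m] (G^[j] y')) ≤ r / 2 / 2 ^ j := by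
    intro j
    induction j with
    | zero => intro m; simpa using hstart m
    | succ j ih =>
      intro m
      have hcomm : ∀ w, f^[m] (G^[j + 1] w) = G (f^[m] (G^[j] w)) := by
        intro w
        rw [iterate_succ_apply']
        exact (hGc.iterate_left m) _
      rw [hcomm, hcomm]
      have h1 := step (f^[m] (G^[j] y')) (f^[m] (G^[j] x')) (fun m' => ?_)
      · refine h1.trans ?_
        have h2 := ih m
        have e : r / 2 / 2 ^ (j + 1) = r / 2 / 2 ^ j / 2 := by rw [pow_succ]; field_simp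
        rw [e]
        linarith
      · rw [← iterate_add_apply, ← iterate_add_apply]
        refine lt_of_le_of_lt (ih _) ?_
        have : r / 2 / 2 ^ j ≤ r / 2 := div_le_self (by positivity) (one_le_pow₀ (by norm_num))
        linarith
  have hlim : Tendsto (fun j : ℕ => dist (G^[j] x') (G^[j] y')) atTop (𝓝 0) := by
    have h5 := (tendsto_pow_atTop_nhds_zero_of_lt_one (r := (1 / 2 : ℝ)) (by norm_num)
      (by norm_num)).const_mul (r / 2)
    rw [mul_zero] at h5
    refine squeeze_zero (fun _ => dist_nonneg) (fun j => ?_) h5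
    have := hdec j 0
    simp only [iterate_zero, id_eq] at this
    refine this.trans (le_of_eq ?_)
    rw [one_div, inv_pow, div_eq_mul_inv]
  have hG' : FwdAsymp g x' y' := by
    refine fwdAsymp_of_mul g.continuous (N := k + 1) (Nat.succ_pos k) ?_
    refine hlim.congr (fun j => ?_)
    rw [hGdef, ← iterate_mul]
  -- go back by `f⁻¹`
  have hback := tendsto_dist_iter f.symm.continuous n₀ hG'
  refine hback.congr (fun j => ?_)
  have hcomm : ∀ w, f.symm^[n₀] (g^[j] (f^[n₀] w)) = g^[j] w := by
    intro w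
    have h1 : Function.Commute f g := hc
    have h2 : g^[j] (f^[n₀] w) = f^[n₀] (g^[j] w) := ((h1.iterate_left n₀).iterate_right j w).symm
    rw [h2]
    have h3 : Function.LeftInverse (f.symm^[n₀]) (f^[n₀]) :=
      Function.LeftInverse.iterate f.symm_apply_apply n₀
    exact h3 _
  rw [hx', hy', hcomm, hcomm]

/-- The same for an exponential estimate. -/
theorem nested_of_estimate (s : Split E f) (hs : s.Hyperbolic) {g : M ≃ₜ M} {D : M → W →L[ℝ] W}
    (hD : HasD E g D) (hc : ∀ x, f (g x) = g (f x)) {C l : ℝ} (hC : 0 < C) (hl0 : 0 < l)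
    (hl1 : l < 1) (h : ∀ (k : ℕ) x w, ‖iterD D g k x (s.S x w)‖ ≤ C * l ^ k * ‖w‖)
    {x y : M} (hxy : FwdAsymp f x y) : FwdAsymp g x y := by
  have hlim : Tendsto (fun k : ℕ => C * l ^ (k + 1)) atTop (𝓝 0) := by
    have h1 := ((tendsto_pow_atTop_nhds_zero_of_lt_one hl0.le hl1).comp
      (tendsto_add_atTop_nat 1)).const_mul C
    rw [mul_zero] at h1
    exact h1
  obtain ⟨k, hk⟩ := ((Metric.tendsto_atTop.1 hlim) (1 / 8) (by norm_num))
  have hk' := hk k le_rfl
  rw [Real.dist_0_eq_abs, abs_of_pos (by positivity)] at hk'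
  refine nested' s hs hD hc (k := k) (fun x w => (h (k + 1) x w).trans ?_) hxy
  exact mul_le_mul_of_nonneg_right hk'.le (norm_nonneg _)

/-- Inclusion of stable bundles gives inclusion of stable sets. -/
theorem nested_of_range {g : M ≃ₜ M} (s : Split E f) (t : Split E g) (hs : s.Hyperbolic)
    (ht : t.Hyperbolic) (hc : ∀ x, f (g x) = g (f x)) (h0 : ∀ x, (s.S x).range ≤ (t.S x).range)
    {x y : M} (hxy : FwdAsymp f x y) : FwdAsymp g x y := by
  refine nested s t hs ht hc (fun x => ?_) hxy
  ext w
  have h1 : s.S x w ∈ (t.S x).range := h0 x ⟨w, rfl⟩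
  obtain ⟨v, hv⟩ := h1
  have h2 := congrArg (fun L => L v) (t.US x)
  simp only [ContinuousLinearMap.comp_apply, zero_apply] at h2 ⊢
  rw [← hv]
  exact h2

end Abstract

end Pool.Agent.Lib.MP610fe3.CH
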