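import Pool.Agent.Lib.MP_610fe3_an.TopC

/-!
# Saturated sets of expansive homeomorphisms with shadowing, and chains

`a` is an expansive homeomorphism with shadowing of a compact space.  If the homeomorphism `f`
preserves the stable and the unstable sets of `a`, and every stable set of `a` lies in a stable set
of `f`, then the closed sets which are saturated by stable sets of `a` and invariant under a power
of `a` are saturated by stable sets of `f`.
-/

set_option autoImplicit false

open Set Filter Function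
open scoped Topology

namespace Pool.Agent.Lib.MP610fe3.CH

section Asymp

variable {X : Type*} [MetricSpace X]

theorem fa_symm {f : X → X} {x y : X} (h : FwdAsymp f x y) : FwdAsymp f y x :=
  (show Tendsto (fun k : ℕ => dist (f^[k] x) (f^[k] y)) atTop (𝓝 0) from h).congr
    fun _ => dist_comm _ _

theorem fa_trans {f : X → X} {x y z : X} (h : FwdAsymp f x y) (h' : FwdAsymp f y z) :
    FwdAsymp f x z := by
  have h2 : Tendsto (fun k : ℕ => dist (f^[k] x) (f^[k] y) + dist (f^[k] y) (f^[k] z)) atTop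
      (𝓝 (0 + 0)) := Tendsto.add h h'
  rw [add_zero] at h2
  exact squeeze_zero (fun _ => dist_nonneg) (fun k => dist_triangle _ _ _) h2

theorem symm_iter (f : X ≃ₜ X) (n : ℕ) (x : X) : f.symm^[n] (f^[n] x) = x :=
  (Function.LeftInverse.iterate f.symm_apply_apply n) x

theorem iter_symm (f : X ≃ₜ X) (n : ℕ) (x : X) : f^[n] (f.symm^[n] x) = x :=
  (Function.RightInverse.iterate f.apply_symm_apply n) x

theorem fa_iter {f : X → X} {x y : X} (n : ℕ) (h : FwdAsymp f x y) :
    FwdAsymp f (f^[n] x) (f^[n] y) := by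
  have h1 := (tendsto_add_atTop_iff_nat n).2
    (show Tendsto (fun k : ℕ => dist (f^[k] x) (f^[k] y)) atTop (𝓝 0) from h)
  refine h1.congr fun k => ?_
  rw [iterate_add_apply, iterate_add_apply]

theorem fa_of_iter {f : X → X} {x y : X} (n : ℕ) (h : FwdAsymp f (f^[n] x) (f^[n] y)) :
    FwdAsymp f x y := by
  refine (tendsto_add_atTop_iff_nat n).1 ?_
  refine (show Tendsto (fun k : ℕ => dist (f^[k] (f^[n] x)) (f^[k] (f^[n] y))) atTop (𝓝 0)
    from h).congr fun k => ?_
  rw [iterate_add_apply, iterate_add_apply]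

theorem fa_symm_iter {f : X ≃ₜ X} {x y : X} (n : ℕ) (h : FwdAsymp f x y) :
    FwdAsymp f (f.symm^[n] x) (f.symm^[n] y) := by
  apply fa_of_iter n
  rw [iter_symm, iter_symm]
  exact h

/-- `K` contains every point forward asymptotic to one of its points. -/
def Sat (a : X → X) (K : Set X) : Prop := ∀ x ∈ K, ∀ y, FwdAsymp a x y → y ∈ K

/-- The points backward asymptotic to a point of `K`. -/
def Wu (a : X ≃ₜ X) (K : Set X) : Set X := {z | ∃ k ∈ K, FwdAsymp a.symm z k}

/-- `f` preserves the stable and the unstable sets of `a`, and stable sets of `a` lie in stable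
sets of `f`. -/
structure Link (a f : X ≃ₜ X) : Prop where
  s : ∀ x y, FwdAsymp a (f x) (f y) → FwdAsymp a x y
  u : ∀ x y, FwdAsymp a.symm (f x) (f y) → FwdAsymp a.symm x y
  c : ∀ x y, FwdAsymp a x y → FwdAsymp f x y

/-- Closed nonempty saturated sets. -/
def Sset (a : X → X) : Set (Set X) := {K | IsClosed K ∧ K.Nonempty ∧ Sat a K}

end Asymp

section Exp

variable {X : Type*} [MetricSpace X] [CompactSpace X] {a f : X ≃ₜ X} {c : ℝ}

theorem bracket' (hc0 : 0 < c) (hc : ExpConst a c) (hsh : Shadowing a) {ε : ℝ} (hε : 0 < ε) :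
    ∃ δ : ℝ, 0 < δ ∧ ∀ p q, dist p q < δ → ∃ z, FwdAsymp a.symm z p ∧ FwdAsymp a z q ∧
      ∀ k, dist (a.symm^[k] z) (a.symm^[k] p) ≤ ε := by
  have he : 0 < min ε c := lt_min hε hc0
  have he1 : min ε c ≤ ε := min_le_left _ _
  have he2 : min ε c ≤ c := min_le_right _ _
  obtain ⟨δ, hδ, hs⟩ := hsh (min ε c / 2) (by positivity)
  refine ⟨min δ (min ε c / 2), lt_min hδ (by positivity), fun p q hpq => ?_⟩
  have hpq1 := hpq.trans_le (min_le_left _ _)
  have hpq2 := hpq.trans_le (min_le_right _ _)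
  obtain ⟨y, hy, hyd⟩ := hs (fun k => if k < 0 then orb a p k else orb a q k) (fun k => by
    rcases lt_trichotomy (k + 1) 0 with h | h | h
    · have h1 : k < 0 := by omega
      simp only [h1, h, if_true]
      rw [orb_succ, dist_self]; exact hδ
    · have h1 : k < 0 := by omega
      have h2 : ¬ (k + 1 < 0) := by omega
      simp only [h1, h2, if_true, if_false]
      rw [orb_succ, h, orb_zero, orb_zero]; exact hpq1
    · have h1 : ¬ (k < 0) := by omega
      have h2 : ¬ (k + 1 < 0) := by omega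
      simp only [h1, h2, if_false]
      rw [orb_succ, dist_self]; exact hδ)
  have hback : ∀ k, dist (a.symm^[k] (y 0)) (a.symm^[k] p) ≤ min ε c := by
    intro k
    rw [symm_iterate_of_orbit hy, zero_sub, ← orb_neg]
    rcases Nat.eq_zero_or_pos k with rfl | hk
    · have h1 := hyd 0
      simp only [lt_self_iff_false, if_false] at h1
      rw [orb_zero] at h1
      simp only [Nat.cast_zero, neg_zero]
      rw [orb_zero]
      have h2 := dist_triangle_right (y 0) p q
      linarith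
    · have h1 := hyd (-k)
      have h2 : (-(k : ℤ)) < 0 := by omega
      simp only [h2, if_true] at h1
      linarith
  refine ⟨y 0, ?_, ?_, fun k => (hback k).trans he1⟩
  · apply hc.symm.fwdAsymp
    exact fun k => (hback k).trans he2
  · apply hc.fwdAsymp
    intro k
    rw [iterate_of_orbit hy, zero_add, ← orb_nat]
    have h1 := hyd k
    have h2 : ¬ ((k : ℤ) < 0) := by omega
    simp only [h2, if_false] at h1
    linarith

omit [CompactSpace X] in
theorem symm_iter_mem {K : Set X} {N : ℕ} (hinv : a^[N] '' K = K) {x : X} (hx : x ∈ K) (n : ℕ) :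
    a.symm^[N * n] x ∈ K := iterate_maps (symm_image hinv) hx n

/-- A point outside `K` is forward asymptotic to a point outside the unstable set of `K`. -/
theorem exists_away (hc0 : 0 < c) (hc : ExpConst a c) (hsh : Shadowing a) {K : Set X}
    (hK : IsClosed K) (hS : Sat a K) {N : ℕ} (hN : 0 < N) (hinv : a^[N] '' K = K) {y : X}
    (hy : y ∉ K) : ∃ r, r ∉ Wu a K ∧ FwdAsymp a y r := by
  obtain ⟨ε, hε, hball⟩ : ∃ ε : ℝ, 0 < ε ∧ ∀ w, dist w y ≤ ε → w ∉ K := by
    obtain ⟨r, hr, hb⟩ := Metric.isOpen_iff.1 hK.isOpen_compl y hy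
    exact ⟨r / 2, by positivity, fun w hw => hb (by
      rw [Metric.mem_ball]; exact hw.trans_lt (by linarith))⟩
  obtain ⟨δ₁, hδ₁, hb₁⟩ := bracket' hc0 hc hsh hε
  have h1 : ∀ n, ∀ k ∈ K, δ₁ ≤ dist (a^[N * n] y) k := by
    intro n k hk
    by_contra hlt
    push Not at hlt
    obtain ⟨z, -, hz2, hz3⟩ := hb₁ _ _ hlt
    have hz : z ∈ K := hS k hk z (fa_symm hz2)
    have h2 := hz3 (N * n)
    rw [symm_iter] at h2
    exact hball _ h2 (symm_iter_mem hinv hz n)
  obtain ⟨q, -, φ, hφ, hlim⟩ := (isCompact_univ (X := X)).tendsto_subseq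
    (x := fun n => a^[N * n] y) (fun _ => mem_univ _)
  have hq : q ∉ Wu a K := by
    rintro ⟨k, hk, hqk⟩
    obtain ⟨m₀, hm₀⟩ := (Metric.tendsto_atTop.1 hqk) (δ₁ / 2) (by positivity)
    have h2 := hm₀ (N * m₀) (Nat.le_mul_of_pos_left m₀ hN)
    rw [Real.dist_0_eq_abs, abs_of_nonneg dist_nonneg] at h2
    have h3 := ((a.symm.continuous.iterate (N * m₀)).tendsto q).comp hlim
    obtain ⟨j₀, hj₀⟩ := (Metric.tendsto_atTop.1 h3) (δ₁ / 2) (by positivity)
    have h4 := hj₀ (max j₀ m₀) (le_max_left _ _)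
    simp only [Function.comp_apply] at h4
    have h5 : m₀ ≤ φ (max j₀ m₀) := (le_max_right _ _).trans (hφ.id_le _)
    rw [symm_iterate_iterate a (Nat.mul_le_mul_left N h5), ← Nat.mul_sub] at h4
    have h6 := h1 (φ (max j₀ m₀) - m₀) _ (symm_iter_mem hinv hk m₀)
    have h7 := dist_triangle (a^[N * (φ (max j₀ m₀) - m₀)] y) (a.symm^[N * m₀] q)
      (a.symm^[N * m₀] k)
    linarith
  obtain ⟨δ, hδ, hb⟩ := bracket hc0 hc hsh
  obtain ⟨j₀, hj₀⟩ := (Metric.tendsto_atTop.1 hlim) δ hδ
  have h2 := hj₀ j₀ le_rfl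
  simp only [Function.comp_apply] at h2
  rw [dist_comm] at h2
  obtain ⟨w, hw1, hw2⟩ := hb _ _ h2
  refine ⟨a.symm^[N * φ j₀] w, ?_, ?_⟩
  · rintro ⟨k, hk, hrk⟩
    have h3 : FwdAsymp a.symm w (a^[N * φ j₀] k) := by
      have h4 := fa_symm_iter (f := a.symm) (N * φ j₀) hrk
      rw [Homeomorph.symm_symm, iter_symm] at h4
      exact h4
    exact hq ⟨_, iterate_maps hinv hk _, fa_trans (fa_symm hw1) h3⟩
  · have h3 := fa_symm_iter (N * φ j₀) hw2
    rw [symm_iter] at h3
    exact fa_symm h3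

omit [CompactSpace X] in
theorem link_iter_s (hL : ∀ x y, FwdAsymp a (f x) (f y) → FwdAsymp a x y) (n : ℕ) {x y : X}
    (h : FwdAsymp a (f^[n] x) (f^[n] y)) : FwdAsymp a x y := by
  induction n with
  | zero => exact h
  | succ n ih =>
    rw [iterate_succ_apply', iterate_succ_apply'] at h
    exact ih (hL _ _ h)

/-- **Key lemma.** -/
theorem sat_of_link (hc0 : 0 < c) (hc : ExpConst a c) (hsh : Shadowing a) (hL : Link a f)
    {K : Set X} (hK : IsClosed K) (hS : Sat a K) {N : ℕ} (hN : 0 < N) (hinv : a^[N] '' K = K) :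
    Sat f K := by
  intro x hx y hxy
  by_contra hy
  obtain ⟨r, hr, hyr⟩ := exists_away hc0 hc hsh hK hS hN hinv hy
  have hxr : FwdAsymp f x r := fa_trans hxy (hL.c _ _ hyr)
  obtain ⟨δ, hδ, hb⟩ := bracket hc0 hc hsh
  obtain ⟨n, hn⟩ := (Metric.tendsto_atTop.1 hxr) δ hδ
  have h1 := hn n le_rfl
  rw [Real.dist_0_eq_abs, abs_of_nonneg dist_nonneg, dist_comm] at h1
  obtain ⟨w, hw1, hw2⟩ := hb _ _ h1
  have hw : f^[n] (f.symm^[n] w) = w := iter_symm f n w
  rw [← hw] at hw1 hw2
  have h2 : FwdAsymp a (f.symm^[n] w) x := link_iter_s hL.s n hw2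
  have h3 : FwdAsymp a.symm (f.symm^[n] w) r := by
    have : ∀ x y, FwdAsymp a.symm (f x) (f y) → FwdAsymp a.symm x y := hL.u
    exact link_iter_s this n hw1
  exact hr ⟨_, hS x hx _ (fa_symm h2), fa_symm h3⟩

/-- Every closed nonempty saturated set contains a periodic point. -/
theorem exists_periodic_mem (hc0 : 0 < c) (hc : ExpConst a c) (hsh : Shadowing a) {K : Set X}
    (hK : K ∈ Sset a) : ∃ p ∈ K, ∃ N, 0 < N ∧ a^[N] p = p := by
  obtain ⟨hcl, ⟨x, hx⟩, hS⟩ := hK
  obtain ⟨y, hyO, hxy⟩ := exists_fwdAsymp hc0 hc hsh x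
  have hy : y ∈ K := hS x hx y hxy
  obtain ⟨δ, hδ, hb⟩ := bracket' hc0 hc hsh hc0
  obtain ⟨t, ht, htf, hcov⟩ := (isClosed_Om a).isCompact.finite_cover_balls (half_pos hδ)
  have hper : ∀ z ∈ Om a, ∃ p ∈ periodicPts a, dist z p < δ / 2 := by
    intro z hz
    exact Metric.mem_closure_iff.1 hz _ (half_pos hδ)
  choose! p hp hpd using hper
  set P : ℕ := ∏ z ∈ htf.toFinset, minimalPeriod a (p z) with hP
  have hPpos : 0 < P := Finset.prod_pos fun z hz =>
    minimalPeriod_pos_of_mem_periodicPts (hp z (ht (htf.mem_toFinset.1 hz)))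
  have hPper : ∀ z ∈ t, a^[P] (p z) = p z := by
    intro z hz
    exact (isPeriodicPt_minimalPeriod a (p z)).trans_dvd
      (Finset.dvd_prod_of_mem _ (htf.mem_toFinset.2 hz))
  have hnet : ∀ n : ℕ, ∃ q, a^[P] q = q ∧ dist q (a^[n] y) < δ := by
    intro n
    have h1 := hcov (iterate_mem_Om hyO n)
    simp only [mem_iUnion, Metric.mem_ball] at h1
    obtain ⟨z, hz, hd⟩ := h1
    refine ⟨p z, hPper z hz, ?_⟩
    have h2 := hpd z (ht hz)
    have h3 := dist_triangle_left (p z) (a^[n] y) z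
    rw [dist_comm (a^[n] y) z] at hd
    linarith
  choose q hq hqd using hnet
  have hz : ∀ n, ∃ z, FwdAsymp a.symm z (q n) ∧ FwdAsymp a z (a^[n] y) ∧
      ∀ k, dist (a.symm^[k] z) (a.symm^[k] (q n)) ≤ c := fun n => hb _ _ (hqd n)
  choose z hz1 hz2 hz3 using hz
  obtain ⟨⟨u, v⟩, -, φ, hφ, hlim⟩ := (isCompact_univ (X := X × X)).tendsto_subseq
    (x := fun n => (a.symm^[n] (z n), a.symm^[n] (q n))) (fun _ => mem_univ _)
  have hlu : Tendsto (fun j => a.symm^[φ j] (z (φ j))) atTop (𝓝 u) :=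
    (continuous_fst.tendsto (u, v)).comp hlim
  have hlv : Tendsto (fun j => a.symm^[φ j] (q (φ j))) atTop (𝓝 v) :=
    (continuous_snd.tendsto (u, v)).comp hlim
  have huK : u ∈ K := by
    refine hcl.mem_of_tendsto hlu (Eventually.of_forall fun j => ?_)
    have h1 := fa_symm_iter (φ j) (hz2 (φ j))
    rw [symm_iter] at h1
    exact hS y hy _ (fa_symm h1)
  have hvP : a^[P] v = v := by
    have h1 := ((a.continuous.iterate P).tendsto v).comp hlv
    refine tendsto_nhds_unique h1 (hlv.congr fun j => ?_)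
    have h2 : a^[P] (a.symm^[φ j] (q (φ j))) = a.symm^[φ j] (a^[P] (q (φ j))) := by
      have hC : Function.Commute (a : X → X) a.symm := fun x => by
        rw [a.apply_symm_apply, a.symm_apply_apply]
      exact ((hC.iterate_left P).iterate_right (φ j)) _
    simp only [Function.comp_apply]
    rw [h2, hq]
  have huv : u = v := by
    apply hc
    · intro k
      have h1 := (((a.continuous.iterate k).tendsto u).comp hlu).dist
        (((a.continuous.iterate k).tendsto v).comp hlv)
      refine le_of_tendsto h1 ?_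
      filter_upwards [eventually_ge_atTop k] with j hj
      simp only [Function.comp_apply]
      have h2 : k ≤ φ j := hj.trans (hφ.id_le j)
      have h3 := symm_iterate_iterate a.symm h2 (z (φ j))
      have h4 := symm_iterate_iterate a.symm h2 (q (φ j))
      rw [Homeomorph.symm_symm] at h3 h4
      rw [h3, h4]
      exact hz3 _ _
    · intro k
      have h1 := (((a.symm.continuous.iterate k).tendsto u).comp hlu).dist
        (((a.symm.continuous.iterate k).tendsto v).comp hlv)
      refine le_of_tendsto' h1 fun j => ?_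
      simp only [Function.comp_apply]
      rw [← iterate_add_apply, ← iterate_add_apply]
      exact hz3 _ _
  exact ⟨u, huK, P, hPpos, by rw [huv]; exact hvP⟩

/-- Minimal closed saturated sets exist below every closed saturated set. -/
theorem exists_minimal {K : Set X} (hK : K ∈ Sset a) :
    ∃ L, L ⊆ K ∧ Minimal (· ∈ Sset a) L := by
  refine zorn_superset_nonempty (Sset a) ?_ K hK
  intro C hC hch hne
  refine ⟨⋂₀ C, ⟨isClosed_sInter fun s hs => (hC hs).1, ?_, ?_⟩, fun s hs => sInter_subset_of_mem hs⟩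
  · have : Nonempty C := hne.to_subtype
    rw [sInter_eq_iInter]
    refine IsCompact.nonempty_iInter_of_directed_nonempty_isCompact_isClosed _ ?_
      (fun s => (hC s.2).2.1) (fun s => (hC s.2).1.isCompact) (fun s => (hC s.2).1)
    intro s t
    rcases hch.total s.2 t.2 with h | h
    · exact ⟨s, subset_rfl, h⟩
    · exact ⟨t, h, subset_rfl⟩
  · intro x hx y hxy s hs
    exact (hC hs).2.2 x (hx s hs) y hxy

/-- Minimal closed saturated sets are invariant under a power. -/
theorem minimal_inv (hc0 : 0 < c) (hc : ExpConst a c) (hsh : Shadowing a) {K : Set X}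
    (hK : Minimal (· ∈ Sset a) K) : ∃ N, 0 < N ∧ a^[N] '' K = K := by
  obtain ⟨p, hp, N, hN, hpN⟩ := exists_periodic_mem hc0 hc hsh hK.1
  obtain ⟨hcl, hne, hS⟩ := hK.1
  have hpN' : a.symm^[N] p = p := by
    have := symm_iter a N p
    rwa [hpN] at this
  have h1 : K ∩ (a^[N]) ⁻¹' K ∈ Sset a := by
    refine ⟨hcl.inter (hcl.preimage (a.continuous.iterate N)), ⟨p, hp, ?_⟩, ?_⟩
    · rw [mem_preimage, hpN]; exact hp
    · intro x hx y hxy
      exact ⟨hS x hx.1 y hxy, hS _ hx.2 _ (fa_iter N hxy)⟩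
  have h2 : K ∩ (a.symm^[N]) ⁻¹' K ∈ Sset a := by
    refine ⟨hcl.inter (hcl.preimage (a.symm.continuous.iterate N)), ⟨p, hp, ?_⟩, ?_⟩
    · rw [mem_preimage, hpN']; exact hp
    · intro x hx y hxy
      exact ⟨hS x hx.1 y hxy, hS _ hx.2 _ (fa_symm_iter N hxy)⟩
  have h3 := hK.2 h1 inter_subset_left
  have h4 := hK.2 h2 inter_subset_left
  refine ⟨N, hN, Subset.antisymm ?_ ?_⟩
  · rintro _ ⟨x, hx, rfl⟩
    exact (h3 hx).2
  · intro x hx
    exact ⟨a.symm^[N] x, (h4 hx).2, iter_symm a N x⟩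

theorem sat_of_minimal (hc0 : 0 < c) (hc : ExpConst a c) (hsh : Shadowing a) (hL : Link a f)
    {K : Set X} (hK : Minimal (· ∈ Sset a) K) : Sat f K := by
  obtain ⟨N, hN, hinv⟩ := minimal_inv hc0 hc hsh hK
  exact sat_of_link hc0 hc hsh hL hK.1.1 hK.1.2.2 hN hinv

/-- Two homeomorphisms linked by `f` have the same minimal closed saturated sets. -/
theorem minimal_step {b : X ≃ₜ X} {c' : ℝ} (hc0 : 0 < c) (hc : ExpConst a c) (hsh : Shadowing a)
    (hc0' : 0 < c') (hc' : ExpConst b c') (hsh' : Shadowing b) (ha : Link a f) (hb : Link b f)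
    {K : Set X} (hK : Minimal (· ∈ Sset a) K) : Minimal (· ∈ Sset b) K := by
  have h1 : Sat f K := sat_of_minimal hc0 hc hsh ha hK
  have h2 : K ∈ Sset b := ⟨hK.1.1, hK.1.2.1, fun x hx y hxy => h1 x hx y (hb.c _ _ hxy)⟩
  obtain ⟨L, hLK, hL⟩ := exists_minimal h2
  have h3 : Sat f L := sat_of_minimal hc0' hc' hsh' hb hL
  have h4 : L ∈ Sset a := ⟨hL.1.1, hL.1.2.1, fun x hx y hxy => h3 x hx y (ha.c _ _ hxy)⟩
  have h5 : K ⊆ L := hK.2 h4 hLK
  rwa [Subset.antisymm hLK h5] at hL

/-- A closed set saturated by stable and by unstable sets is open. -/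
theorem isOpen_of_sat (hc0 : 0 < c) (hc : ExpConst a c) (hsh : Shadowing a) {K : Set X}
    (hs : Sat a K) (hu : Sat a.symm K) : IsOpen K := by
  obtain ⟨δ, hδ, hb⟩ := bracket hc0 hc hsh
  rw [Metric.isOpen_iff]
  intro k hk
  refine ⟨δ, hδ, fun z hz => ?_⟩
  obtain ⟨w, hw1, hw2⟩ := hb z k hz
  exact hu w (hs k hk w (fa_symm hw2)) z hw1

omit [CompactSpace X] in
theorem isClosed_reach (y : X) : IsClosed {x | ∀ n, Reach a (a^[n] x) y} := by
  apply isClosed_of_closure_subset
  intro x hx n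
  apply reach_of_approx a.continuous
  intro r hr
  obtain ⟨r', hr', h'⟩ := Metric.continuous_iff.1 (a.continuous.iterate n) x r hr
  obtain ⟨x', hx', hd⟩ := Metric.mem_closure_iff.1 hx r' hr'
  rw [dist_comm] at hd
  exact ⟨a^[n] x', y, h' x' hd, by rwa [dist_self], hx' n⟩

omit [CompactSpace X] in
theorem sat_reach (y : X) : Sat a {x | ∀ n, Reach a (a^[n] x) y} := by
  intro x hx x' hxx' n ε hε
  obtain ⟨m, hm⟩ := (Metric.tendsto_atTop.1 hxx') (ε / 2) (by positivity)
  have h1 := hm (n + m + 1) (by omega)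
  rw [Real.dist_0_eq_abs, abs_of_nonneg dist_nonneg, dist_comm] at h1
  have h2 := (chain_iterate (f := a) (show 0 < ε / 2 by positivity) (a^[n] x')
    (m := m + 1) (by omega))
  rw [← iterate_add_apply, show m + 1 + n = n + m + 1 by omega] at h2
  have h3 := h2.last h1
  rw [add_halves] at h3
  exact h3.trans (hx (n + m + 1) ε hε)

/-- If the whole space is the only closed nonempty saturated set then `a` is chain transitive. -/
theorem chainTransitive_of_univ [Nonempty X] (hc0 : 0 < c) (hc : ExpConst a c)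
    (hsh : Shadowing a) (h : ∀ K ∈ Sset a, K = univ) : ChainTransitive a := by
  have hKy : ∀ y ∈ periodicPts a, ∀ x, Reach a x y := by
    intro y hy x
    have h1 : {x | ∀ n, Reach a (a^[n] x) y} ∈ Sset a :=
      ⟨isClosed_reach y, ⟨y, fun n => reach_periodic hy n⟩, sat_reach y⟩
    have h2 : x ∈ {x | ∀ n, Reach a (a^[n] x) y} := by rw [h _ h1]; trivial
    exact h2 0
  have huniv : (univ : Set X) ∈ Sset a := ⟨isClosed_univ, univ_nonempty, fun _ _ _ _ => trivial⟩
  obtain ⟨p, -, N, hN, hp⟩ := exists_periodic_mem hc0 hc hsh huniv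
  have hpp : p ∈ periodicPts a := ⟨N, hN, hp⟩
  have hpx : ∀ x, Reach a p x := by
    intro x
    have hsh' : Shadowing a.symm := by
      intro ε hε
      obtain ⟨δ, hδ, hs⟩ := hsh ε hε
      obtain ⟨δ', hδ', hu⟩ := Metric.uniformContinuous_iff.1
        (CompactSpace.uniformContinuous_of_continuous a.continuous) δ hδ
      refine ⟨δ', hδ', fun z hz => ?_⟩
      obtain ⟨w, hw, hwd⟩ := hs (fun k => z (-k)) (fun k => by
        have h1 := hz (-(k + 1))
        have h2 := hu h1
        rw [a.apply_symm_apply, show -(k + 1) + 1 = -k by ring, dist_comm] at h2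
        exact h2)
      refine ⟨fun k => w (-k), fun k => ?_, fun k => ?_⟩
      · have h3 := hw (-(k + 1))
        rw [show -(k + 1) + 1 = -k by ring] at h3
        show a.symm (w (-k)) = w (-(k + 1))
        rw [← h3, a.symm_apply_apply]
      · have h3 := hwd (-k)
        simp only [neg_neg] at h3
        exact h3
    obtain ⟨y', hy', hxy'⟩ := exists_fwdAsymp (f := a.symm) hc0 hc.symm hsh' x
    rw [Om_symm] at hy'
    have h1 : Reach a y' x := reach_of_bwdAsymp hy' hxy'
    have h2 : Reach a p y' := by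
      apply reach_of_approx a.continuous
      intro r hr
      obtain ⟨p', hp', hd⟩ := Metric.mem_closure_iff.1 hy' r hr
      rw [dist_comm] at hd
      exact ⟨p, p', by rwa [dist_self], hd, hKy p' hp' p⟩
    exact h2.trans h1
  intro x y ε hε
  exact ((hKy p hpp x).trans (hpx y)) ε hε

/-- **The chain theorem**, general form: the whole space is the only closed nonempty set saturated
by the stable sets of all `f i`. -/
theorem chain_general [Nonempty X] (m : ℕ) (a f : ℕ → X ≃ₜ X) (hexp : ∀ i ≤ m, Expansive (a i))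
    (hsh : ∀ i ≤ m, Shadowing (a i)) (h1 : ∀ i ≤ m, Link (a i) (f i))
    (h2 : ∀ i < m, Link (a (i + 1)) (f i))
    (h3 : ∀ K : Set X, IsClosed K → K.Nonempty → (∀ i ≤ m, Sat (f i) K) → K = univ) :
    ∀ i ≤ m, TopTransitive (a i) := by
  have hexp' : ∀ i ≤ m, ∃ c, 0 < c ∧ ExpConst (a i) c := hexp
  choose! c hc0 hc using hexp'
  have hind : ∀ i ≤ m, ∀ K, Minimal (· ∈ Sset (a i)) K ↔ Minimal (· ∈ Sset (a 0)) K := by
    intro i
    induction i with
    | zero => intro _ K; exact Iff.rfl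
    | succ i ih =>
      intro hi K
      have hi' : i ≤ m := by omega
      rw [← ih hi' K]
      exact ⟨fun h => minimal_step (hc0 _ hi) (hc _ hi) (hsh _ hi) (hc0 i hi') (hc i hi')
          (hsh i hi') (h2 i (by omega)) (h1 i hi') h,
        fun h => minimal_step (hc0 i hi') (hc i hi') (hsh i hi') (hc0 _ hi) (hc _ hi)
          (hsh _ hi) (h1 i hi') (h2 i (by omega)) h⟩
  have hm0 : ∀ K, Minimal (· ∈ Sset (a 0)) K → K = univ := by
    intro K hK
    refine h3 K hK.1.1 hK.1.2.1 fun i hi => ?_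
    exact sat_of_minimal (hc0 i hi) (hc i hi) (hsh i hi) (h1 i hi) ((hind i hi K).2 hK)
  intro i hi
  have h8 : ∀ K ∈ Sset (a i), K = univ := by
    intro K hK
    obtain ⟨L, hLK, hL⟩ := exists_minimal hK
    have h9 := hm0 L ((hind i hi L).1 hL)
    rw [h9] at hLK
    exact univ_subset_iff.1 hLK
  exact topTransitive_of_shadowing (hsh i hi)
    (chainTransitive_of_univ (hc0 i hi) (hc i hi) (hsh i hi) h8)

/-- **The chain theorem**: the unstable sets of `a 0` lie in stable sets of `f m`. -/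
theorem chain [ConnectedSpace X] (m : ℕ) (a f : ℕ → X ≃ₜ X) (hexp : ∀ i ≤ m, Expansive (a i))
    (hsh : ∀ i ≤ m, Shadowing (a i)) (h1 : ∀ i ≤ m, Link (a i) (f i))
    (h2 : ∀ i < m, Link (a (i + 1)) (f i))
    (h3 : ∀ x y, FwdAsymp (a 0).symm x y → FwdAsymp (f m) x y) :
    ∀ i ≤ m, TopTransitive (a i) := by
  refine chain_general m a f hexp hsh h1 h2 fun K hK hne hS => ?_
  obtain ⟨c, hc0, hc⟩ : ∃ c, 0 < c ∧ ExpConst (a 0) c := hexp 0 (Nat.zero_le m)
  have h4 : Sat (a 0) K := fun x hx y hxy => hS 0 (Nat.zero_le m) x hx y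
    ((h1 0 (Nat.zero_le m)).c x y hxy)
  have h6 : Sat (a 0).symm K := fun x hx y hxy => hS m le_rfl x hx y (h3 x y hxy)
  exact IsClopen.eq_univ ⟨hK, isOpen_of_sat hc0 hc (hsh 0 (Nat.zero_le _)) h4 h6⟩ hne

end Exp

end Pool.Agent.Lib.MP610fe3.CH
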